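import Pool.Agent.H88.FA.Gap
import Pool.Agent.H17.QPNT2

/-!
# Corollaries of the gap bound
-/

namespace Pool.Agent.H88.FA

open Finset

lemma clog_le_two_mul_log {q : ℕ} (hq : 2 ≤ q) : Nat.clog 2 q ≤ 2 * Nat.log 2 q := by
  have h1 : Nat.clog 2 q ≤ Nat.log 2 q + 1 := by
    apply Nat.clog_le_of_le_pow
    exact (Nat.lt_pow_succ_log_self (by norm_num) q).le
  have h2 : 1 ≤ Nat.log 2 q := Nat.log_pos (by norm_num) hq
  omega

lemma sum_log_le (l : List ℕ) (h : ∀ q ∈ l, q ≠ 0) : (l.map (Nat.log 2)).sum ≤ Nat.log 2 l.prod := by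
  induction l with
  | nil => simp
  | cons q l ih =>
    rw [List.map_cons, List.sum_cons, List.prod_cons]
    have h1 := ih fun r hr => h r (List.mem_cons_of_mem _ hr)
    have hq : q ≠ 0 := h q List.mem_cons_self
    have hl : l.prod ≠ 0 := by
      rw [Ne, List.prod_eq_zero_iff]
      intro h0
      exact h 0 (List.mem_cons_of_mem _ h0) rfl
    have h2 : Nat.log 2 q + Nat.log 2 l.prod ≤ Nat.log 2 (q * l.prod) := by
      apply Nat.le_log_of_pow_le (by norm_num)
      rw [pow_add]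
      exact Nat.mul_le_mul (Nat.pow_log_le_self 2 hq) (Nat.pow_log_le_self 2 hl)
    omega

lemma cost_le {s : ℕ} (hs : s ≠ 0) : cost s ≤ 2 * Nat.log 2 s := by
  unfold cost
  calc (s.primeFactorsList.map (Nat.clog 2)).sum ≤ (s.primeFactorsList.map fun q => 2 * Nat.log 2 q).sum := by
        apply List.sum_le_sum
        intro q hq
        exact clog_le_two_mul_log (Nat.prime_of_mem_primeFactorsList hq).two_le
    _ = 2 * (s.primeFactorsList.map (Nat.log 2)).sum := by rw [List.sum_map_mul_left]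
    _ ≤ 2 * Nat.log 2 s.primeFactorsList.prod := by
        apply Nat.mul_le_mul_left
        apply sum_log_le
        intro q hq
        exact (Nat.prime_of_mem_primeFactorsList hq).ne_zero
    _ = 2 * Nat.log 2 s := by rw [Nat.prod_primeFactorsList hs]

/-- `K` disjoint intervals of length `G` below `L` give `K` primes -/
lemma card_primes {G L n : ℕ} (hLn : L ≤ n) (hG : ∀ x, 1 ≤ x → x + G ≤ n → ∃ P, P.Prime ∧ x ≤ P ∧ P < x + G) :
    ∀ K : ℕ, K * G + 1 ≤ L → K ≤ ((Finset.Ico (L - K * G) L).filter Nat.Prime).card := by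
  intro K
  induction K with
  | zero => intro _; simp
  | succ K ih =>
    intro h
    have e : (K + 1) * G = K * G + G := by ring
    rw [e] at h ⊢
    have h1 := ih (by omega)
    obtain ⟨P, hP, hP1, hP2⟩ := hG (L - (K * G + G)) (by omega) (by omega)
    have h2 : ((Finset.Ico (L - K * G) L).filter Nat.Prime) ∪ {P} ⊆
        (Finset.Ico (L - (K * G + G)) L).filter Nat.Prime := by
      intro Q hQ
      rw [Finset.mem_union, Finset.mem_filter, Finset.mem_Ico, Finset.mem_singleton] at hQ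
      rw [Finset.mem_filter, Finset.mem_Ico]
      rcases hQ with ⟨hQ, hQ'⟩ | rfl
      · exact ⟨by omega, hQ'⟩
      · exact ⟨by omega, hP⟩
    have h3 : P ∉ (Finset.Ico (L - K * G) L).filter Nat.Prime := by
      rw [Finset.mem_filter, Finset.mem_Ico]
      omega
    have h4 := Finset.card_le_card h2
    rw [Finset.card_union_of_disjoint (Finset.disjoint_singleton_right.mpr h3), Finset.card_singleton] at h4
    omega

/-- **Gaps of `l` and gaps between primes.** -/
theorem gap_le_of_primeGap {n p G : ℕ} (hn : 1 ≤ n) (hp : p.Prime) (hpn : p ∣ n + 1)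
    (hG : ∀ x, 1 ≤ x → x + G ≤ n → ∃ P, P.Prime ∧ x ≤ P ∧ P < x + G) :
    ell (n + 1) ≤ ell n + cost ((n + 1) / p) * G := by
  set K := cost ((n + 1) / p) with hK
  set L := ell (n + 1) with hL
  have hL2 : 2 * L ≤ n + 2 := two_mul_ell_le (n := n + 1) (by omega)
  by_cases h : K * G + 1 ≤ L
  · have h1 := card_primes (n := n) (by omega) hG K h
    have h2 := gap_bound (t := L - K * G) hn hp hpn (by omega) h1
    omega
  · have := one_le_ell hn
    omega

/-- the same with an explicit logarithm -/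
theorem gap_le_of_primeGap' {n G : ℕ} (hn : 1 ≤ n)
    (hG : ∀ x, 1 ≤ x → x + G ≤ n → ∃ P, P.Prime ∧ x ≤ P ∧ P < x + G) :
    ell (n + 1) ≤ ell n + (2 * Nat.log 2 (n + 1) - 2) * G := by
  have hp := Nat.minFac_prime (n := n + 1) (by omega)
  set p := Nat.minFac (n + 1) with hpdef
  have hpn : p ∣ n + 1 := Nat.minFac_dvd (n + 1)
  have h1 := gap_le_of_primeGap hn hp hpn hG
  obtain ⟨s, hs⟩ := hpn
  have hs0 : s ≠ 0 := by
    rintro rfl
    omega
  have hsdiv : (n + 1) / p = s := by rw [hs]; exact Nat.mul_div_cancel_left s hp.pos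
  rw [hsdiv] at h1
  have h2 := cost_le hs0
  have h3 : Nat.log 2 s + 1 ≤ Nat.log 2 (n + 1) := by
    apply Nat.le_log_of_pow_le (by norm_num)
    rw [pow_succ, hs, mul_comm]
    exact Nat.mul_le_mul hp.two_le (Nat.pow_log_le_self 2 hs0)
  have h4 : cost s * G ≤ (2 * Nat.log 2 (n + 1) - 2) * G := Nat.mul_le_mul_right _ (by omega)
  omega

/-! ### The unconditional bound -/

/-- the error term of the prime number theorem -/
noncomputable def err (a x : ℝ) : ℝ := x * Real.exp (-a * (Real.log x) ^ ((1 : ℝ) / 10))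

lemma rpow_tenth_sub_le {u w : ℝ} (hu : 1 / 2 ≤ u) (huw : u ≤ w) :
    w ^ ((1 : ℝ) / 10) ≤ u ^ ((1 : ℝ) / 10) + (w - u) / 5 := by
  have hu0 : 0 < u := by linarith
  have h1 : w = u * (1 + (w - u) / u) := by field_simp; ring
  have hz : 0 ≤ (w - u) / u := div_nonneg (by linarith) hu0.le
  have h2 : (1 + (w - u) / u) ^ ((1 : ℝ) / 10) ≤ 1 + (1 / 10) * ((w - u) / u) :=
    rpow_one_add_le_one_add_mul_self (by linarith) (by norm_num) (by norm_num)
  have h3 : u ^ ((1 : ℝ) / 10) ≤ 2 * u := by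
    rcases le_total u 1 with h | h
    · calc u ^ ((1 : ℝ) / 10) ≤ 1 := Real.rpow_le_one hu0.le h (by norm_num)
        _ ≤ 2 * u := by linarith
    · calc u ^ ((1 : ℝ) / 10) ≤ u ^ (1 : ℝ) := Real.rpow_le_rpow_of_exponent_le h (by norm_num)
        _ = u := Real.rpow_one u
        _ ≤ 2 * u := by linarith
  have h0 : 0 ≤ u ^ ((1 : ℝ) / 10) := Real.rpow_nonneg hu0.le _
  calc w ^ ((1 : ℝ) / 10) = (u * (1 + (w - u) / u)) ^ ((1 : ℝ) / 10) := by rw [← h1]
    _ = u ^ ((1 : ℝ) / 10) * (1 + (w - u) / u) ^ ((1 : ℝ) / 10) := Real.mul_rpow hu0.le (by linarith)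
    _ ≤ u ^ ((1 : ℝ) / 10) * (1 + (1 / 10) * ((w - u) / u)) := mul_le_mul_of_nonneg_left h2 h0
    _ = u ^ ((1 : ℝ) / 10) + u ^ ((1 : ℝ) / 10) * ((w - u) / u) / 10 := by ring
    _ ≤ u ^ ((1 : ℝ) / 10) + (2 * u) * ((w - u) / u) / 10 := by
        have := mul_le_mul_of_nonneg_right h3 hz
        linarith
    _ = u ^ ((1 : ℝ) / 10) + (w - u) / 5 := by
        have : (2 * u) * ((w - u) / u) = 2 * (w - u) := by field_simp
        rw [this]; ring

lemma err_mono {a x y : ℝ} (ha : 0 < a) (ha4 : a ≤ 1 / 4) (hy : 2 ≤ y) (hyx : y ≤ x) : err a y ≤ err a x := by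
  have hy0 : 0 < y := by linarith
  have hx0 : 0 < x := by linarith
  have hl : 1 / 2 ≤ Real.log y := by
    have h1 : Real.log 2 ≤ Real.log y := Real.log_le_log (by norm_num) hy
    have h2 := Real.log_two_gt_d9
    linarith
  have hlx : Real.log y ≤ Real.log x := Real.log_le_log hy0 hyx
  have h1 := rpow_tenth_sub_le hl hlx
  unfold err
  calc y * Real.exp (-a * Real.log y ^ ((1 : ℝ) / 10))
      = Real.exp (Real.log y + -a * Real.log y ^ ((1 : ℝ) / 10)) := by rw [Real.exp_add, Real.exp_log hy0]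
    _ ≤ Real.exp (Real.log x + -a * Real.log x ^ ((1 : ℝ) / 10)) := by
        apply Real.exp_le_exp.mpr
        nlinarith
    _ = x * Real.exp (-a * Real.log x ^ ((1 : ℝ) / 10)) := by rw [Real.exp_add, Real.exp_log hx0]

lemma log_sq_le_err {a : ℝ} (ha : 0 < a) (ha4 : a ≤ 1 / 4) : ∃ C : ℝ, 0 < C ∧ ∀ n : ℕ, 1 ≤ n →
    (Real.log (n + 1) + 1) ^ 2 ≤ C * err a n := by
  refine ⟨100 * Real.exp (1 / 4), by positivity, fun n hn => ?_⟩
  have hn1 : (1 : ℝ) ≤ n := by exact_mod_cast hn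
  have hn0 : (0 : ℝ) < n := by linarith
  have hl0 : 0 ≤ Real.log n := Real.log_nonneg hn1
  -- lower bound for err
  have h1 : Real.log n ^ ((1 : ℝ) / 10) ≤ 1 + Real.log n := by
    have := rpow_one_add_le_one_add_mul_self (s := Real.log n) (p := (1 : ℝ) / 10) (by linarith) (by norm_num) (by norm_num)
    have h2 : Real.log n ^ ((1 : ℝ) / 10) ≤ (1 + Real.log n) ^ ((1 : ℝ) / 10) :=
      Real.rpow_le_rpow hl0 (by linarith) (by norm_num)
    linarith
  have h2 : Real.exp (-(1 / 4)) * (n : ℝ) ^ ((3 : ℝ) / 4) ≤ err a n := by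
    unfold err
    have e1 : (n : ℝ) ^ ((3 : ℝ) / 4) = Real.exp ((3 / 4) * Real.log n) := by
      rw [Real.rpow_def_of_pos hn0, mul_comm]
    have e2 : (n : ℝ) * Real.exp (-a * Real.log n ^ ((1 : ℝ) / 10)) =
        Real.exp (Real.log n + -a * Real.log n ^ ((1 : ℝ) / 10)) := by rw [Real.exp_add, Real.exp_log hn0]
    rw [e1, e2, ← Real.exp_add]
    apply Real.exp_le_exp.mpr
    nlinarith
  -- upper bound for the logarithm
  have h3 : Real.log (n + 1) + 1 ≤ 10 * (n : ℝ) ^ ((3 : ℝ) / 8) := by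
    have h4 : Real.log (n + 1) ≤ Real.log n + 1 := by
      have : Real.log ((n : ℝ) + 1) ≤ Real.log (2 * n) := Real.log_le_log (by linarith) (by linarith)
      rw [Real.log_mul (by norm_num) hn0.ne'] at this
      have h5 := Real.log_two_lt_d9
      linarith
    have h5 : Real.log n ≤ (n : ℝ) ^ ((3 : ℝ) / 8) / (3 / 8) := Real.log_le_rpow_div hn0.le (by norm_num)
    have h6 : (1 : ℝ) ≤ (n : ℝ) ^ ((3 : ℝ) / 8) := Real.one_le_rpow hn1 (by norm_num)
    have h7 : (n : ℝ) ^ ((3 : ℝ) / 8) / (3 / 8) = (8 / 3) * (n : ℝ) ^ ((3 : ℝ) / 8) := by ring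
    rw [h7] at h5
    linarith
  have h4 : 0 ≤ Real.log (n + 1) + 1 := by
    have : 0 ≤ Real.log ((n : ℝ) + 1) := Real.log_nonneg (by linarith)
    linarith
  calc (Real.log (n + 1) + 1) ^ 2 ≤ (10 * (n : ℝ) ^ ((3 : ℝ) / 8)) ^ 2 := pow_le_pow_left₀ h4 h3 2
    _ = 100 * (n : ℝ) ^ ((3 : ℝ) / 4) := by
        rw [mul_pow, ← Real.rpow_natCast ((n : ℝ) ^ ((3 : ℝ) / 8)), ← Real.rpow_mul hn0.le]
        norm_num
    _ = 100 * Real.exp (1 / 4) * (Real.exp (-(1 / 4)) * (n : ℝ) ^ ((3 : ℝ) / 4)) := by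
        have : Real.exp (1 / 4) * Real.exp (-(1 / 4)) = 1 := by rw [← Real.exp_add]; norm_num
        calc 100 * (n : ℝ) ^ ((3 : ℝ) / 4) = 100 * (Real.exp (1 / 4) * Real.exp (-(1 / 4))) * (n : ℝ) ^ ((3 : ℝ) / 4) := by
              rw [this]; ring
          _ = _ := by ring
    _ ≤ 100 * Real.exp (1 / 4) * err a n := mul_le_mul_of_nonneg_left h2 (by positivity)

lemma theta_sub_theta {t L : ℕ} (ht : 1 ≤ t) (htL : t ≤ L) :
    Chebyshev.theta ((L : ℝ) - 1) - Chebyshev.theta ((t : ℝ) - 1) ≤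
      (((Finset.Ico t L).filter Nat.Prime).card : ℝ) * Real.log L := by
  have e1 : ((L : ℝ) - 1) = ((L - 1 : ℕ) : ℝ) := by
    rw [Nat.cast_sub (by omega)]; simp
  have e2 : ((t : ℝ) - 1) = ((t - 1 : ℕ) : ℝ) := by
    rw [Nat.cast_sub (by omega)]; simp
  rw [e1, e2]
  unfold Chebyshev.theta
  rw [Nat.floor_natCast, Nat.floor_natCast]
  have h1 : (Finset.Ioc 0 (t - 1)).filter Nat.Prime ∪ (Finset.Ico t L).filter Nat.Prime =
      (Finset.Ioc 0 (L - 1)).filter Nat.Prime := by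
    rw [← Finset.filter_union]
    congr 1
    ext x
    simp only [Finset.mem_union, Finset.mem_Ioc, Finset.mem_Ico]
    omega
  have h2 : Disjoint ((Finset.Ioc 0 (t - 1)).filter Nat.Prime) ((Finset.Ico t L).filter Nat.Prime) := by
    apply Finset.disjoint_filter_filter
    rw [Finset.disjoint_left]
    intro x hx hx2
    rw [Finset.mem_Ioc] at hx
    rw [Finset.mem_Ico] at hx2
    omega
  rw [← h1, Finset.sum_union h2, add_sub_cancel_left, ← nsmul_eq_mul]
  apply Finset.sum_le_card_nsmul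
  intro P hP
  rw [Finset.mem_filter, Finset.mem_Ico] at hP
  apply Real.log_le_log
  · exact_mod_cast hP.2.pos
  · exact_mod_cast hP.1.2.le

/-- **Unconditional bound for the gaps of `l`.** -/
theorem gap_pnt : ∃ a C : ℝ, 0 < a ∧ 0 < C ∧ ∀ n : ℕ, 1 ≤ n →
    (ell (n + 1) : ℝ) ≤ ell n + C * n * Real.exp (-a * (Real.log n) ^ ((1 : ℝ) / 10)) := by
  obtain ⟨a, C, ha, ha4, hC, hth⟩ := Pool.Agent.H17.ZB.theta_error
  obtain ⟨C1, hC1, hlog⟩ := log_sq_le_err ha ha4
  refine ⟨a, 2 * C + 13 * C1, ha, by positivity, fun n hn => ?_⟩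
  have hE : (2 * C + 13 * C1) * n * Real.exp (-a * (Real.log n) ^ ((1 : ℝ) / 10)) =
      (2 * C + 13 * C1) * err a n := by unfold err; ring
  rw [hE]
  set E := err a n with hEdef
  have hE0 : 0 ≤ E := by rw [hEdef]; unfold err; positivity
  have hn1 : (1 : ℝ) ≤ n := by exact_mod_cast hn
  have hl := hlog n hn
  have hlog0 : 0 < Real.log ((n : ℝ) + 1) := Real.log_pos (by linarith)
  have hE1 : 1 ≤ C1 * E := by nlinarith
  set L := ell (n + 1) with hL
  have hL2 : 2 * L ≤ n + 2 := two_mul_ell_le (n := n + 1) (by omega)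
  have hl1 : (1 : ℝ) ≤ ell n := by exact_mod_cast one_le_ell hn
  set g := ⌈(2 * C + 9 * C1) * E⌉₊ with hg
  have hg1 : (2 * C + 9 * C1) * E ≤ g := Nat.le_ceil _
  have hg2 : (g : ℝ) < (2 * C + 9 * C1) * E + 1 := Nat.ceil_lt_add_one (by positivity)
  by_cases h : L ≤ g + 3
  · have h1 : (L : ℝ) ≤ g + 3 := by exact_mod_cast h
    nlinarith
  · have ht : 4 ≤ L - g := by omega
    set t := L - g with htdef
    have htL : t ≤ L := by omega
    have hcast : (L : ℝ) - t = g := by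
      have : L = t + g := by omega
      rw [this]; push_cast; ring
    -- the smallest prime factor
    have hp := Nat.minFac_prime (n := n + 1) (by omega)
    have hpn : Nat.minFac (n + 1) ∣ n + 1 := Nat.minFac_dvd (n + 1)
    set p := Nat.minFac (n + 1) with hpdef
    have hs0 : (n + 1) / p ≠ 0 := (Nat.div_pos (Nat.le_of_dvd (by omega) hpn) hp.pos).ne'
    have hK1 : cost ((n + 1) / p) ≤ 2 * Nat.log 2 (n + 1) :=
      (cost_le hs0).trans (Nat.mul_le_mul_left _ (Nat.log_mono_right (Nat.div_le_self _ _)))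
    have hK2 : ((Nat.log 2 (n + 1) : ℕ) : ℝ) * Real.log 2 ≤ Real.log ((n : ℝ) + 1) := by
      have h1 : (2 : ℕ) ^ Nat.log 2 (n + 1) ≤ n + 1 := Nat.pow_log_le_self 2 (by omega)
      have h2 : (2 : ℝ) ^ Nat.log 2 (n + 1) ≤ (n : ℝ) + 1 := by exact_mod_cast h1
      rw [← Real.log_pow]
      exact Real.log_le_log (by positivity) h2
    have hK3 : (cost ((n + 1) / p) : ℝ) ≤ 3 * Real.log ((n : ℝ) + 1) := by
      have h1 : (cost ((n + 1) / p) : ℝ) ≤ 2 * ((Nat.log 2 (n + 1) : ℕ) : ℝ) := by exact_mod_cast hK1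
      have h2 := Real.log_two_gt_d9
      have h3 : (0 : ℝ) ≤ ((Nat.log 2 (n + 1) : ℕ) : ℝ) := Nat.cast_nonneg _
      nlinarith
    -- primes in the window
    have h1 := theta_sub_theta (t := t) (L := L) (by omega) htL
    have hLr : (L : ℝ) ≤ n + 1 := by
      have : L ≤ n + 1 := by omega
      exact_mod_cast this
    have htr : (4 : ℝ) ≤ t := by exact_mod_cast ht
    have htLr : (t : ℝ) ≤ L := by exact_mod_cast htL
    have h2 := hth ((L : ℝ) - 1) (by linarith)
    have h3 := hth ((t : ℝ) - 1) (by linarith)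
    have e2 : C * ((L : ℝ) - 1) * Real.exp (-a * (Real.log ((L : ℝ) - 1)) ^ ((1 : ℝ) / 10)) =
        C * err a ((L : ℝ) - 1) := by unfold err; ring
    have e3 : C * ((t : ℝ) - 1) * Real.exp (-a * (Real.log ((t : ℝ) - 1)) ^ ((1 : ℝ) / 10)) =
        C * err a ((t : ℝ) - 1) := by unfold err; ring
    rw [e2] at h2
    rw [e3] at h3
    have m2 : err a ((L : ℝ) - 1) ≤ E := err_mono ha ha4 (by linarith) (by linarith)
    have m3 : err a ((t : ℝ) - 1) ≤ E := err_mono ha ha4 (by linarith) (by linarith)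
    have m2' := mul_le_mul_of_nonneg_left m2 hC.le
    have m3' := mul_le_mul_of_nonneg_left m3 hC.le
    rw [abs_le] at h2 h3
    set w := ((Finset.Ico t L).filter Nat.Prime).card with hw
    have h4 : 9 * C1 * E ≤ (w : ℝ) * Real.log L := by nlinarith [h2.1, h3.2]
    have h5 : (w : ℝ) * Real.log L ≤ w * Real.log ((n : ℝ) + 1) := by
      apply mul_le_mul_of_nonneg_left _ (Nat.cast_nonneg _)
      exact Real.log_le_log (by linarith) hLr
    have h6 : 3 * Real.log ((n : ℝ) + 1) ≤ w := by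
      by_contra hc
      push Not at hc
      have h7 : (w : ℝ) * Real.log ((n : ℝ) + 1) ≤ 3 * Real.log ((n : ℝ) + 1) * Real.log ((n : ℝ) + 1) :=
        mul_le_mul_of_nonneg_right hc.le hlog0.le
      nlinarith
    have h7 : cost ((n + 1) / p) ≤ w := by
      have : (cost ((n + 1) / p) : ℝ) ≤ w := hK3.trans h6
      exact_mod_cast this
    have h8 := gap_bound (t := t) hn hp hpn htL h7
    have h9 : (t : ℝ) ≤ ell n := by exact_mod_cast h8
    nlinarith

end Pool.Agent.H88.FA
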