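import Mathlib

/-!
# The largest least factor `l(n)` of `n!` (MP_3e4ee0_nt)
-/

namespace Pool.Agent.H88.FA

open Finset

/-- `n!` is a product of exactly `n` positive integers all of which are at least `l` -/
def Admits (n l : ℕ) : Prop :=
  ∃ a : Fin n → ℕ, (∏ i, a i = n.factorial) ∧ ∀ i, l ≤ a i

/-- the largest integer `l` such that `n!` is a product of exactly `n` positive integers, all at least `l` -/
noncomputable def ell (n : ℕ) : ℕ := sSup {l | Admits n l}

/-- cost of an integer: each prime factor `q` (with multiplicity) costs `⌈log₂ q⌉` -/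
def cost (s : ℕ) : ℕ := (s.primeFactorsList.map (Nat.clog 2)).sum

lemma admits_iff {n l : ℕ} :
    Admits n l ↔ ∃ M : Multiset ℕ, Multiset.card M = n ∧ M.prod = n.factorial ∧ ∀ a ∈ M, l ≤ a := by
  constructor
  · rintro ⟨a, h1, h2⟩
    refine ⟨(Finset.univ : Finset (Fin n)).val.map a, by simp, h1, ?_⟩
    intro x hx
    simp only [Multiset.mem_map] at hx
    obtain ⟨i, -, rfl⟩ := hx
    exact h2 i
  · rintro ⟨M, h1, h2, h3⟩
    induction M using Quotient.inductionOn with
    | _ L =>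
      simp only [Multiset.quot_mk_to_coe, Multiset.coe_card, Multiset.prod_coe, Multiset.mem_coe] at h1 h2 h3
      subst h1
      refine ⟨fun i => L.get i, ?_, fun i => h3 _ (List.get_mem L i)⟩
      rw [← h2, ← List.prod_ofFn, List.ofFn_get]

lemma admits_zero (n : ℕ) (hn : 1 ≤ n) : Admits n 1 := by
  rw [admits_iff]
  refine ⟨n.factorial ::ₘ Multiset.replicate (n - 1) 1, by simp; omega, by simp, ?_⟩
  intro a ha
  rw [Multiset.mem_cons, Multiset.mem_replicate] at ha
  rcases ha with rfl | ⟨-, rfl⟩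
  · exact Nat.factorial_pos n
  · exact le_refl 1

lemma Admits.mono {n l l' : ℕ} (h : Admits n l) (h' : l' ≤ l) : Admits n l' := by
  obtain ⟨a, h1, h2⟩ := h
  exact ⟨a, h1, fun i => h'.trans (h2 i)⟩

lemma Admits.pow_le {n l : ℕ} (h : Admits n l) : l ^ n ≤ n.factorial := by
  obtain ⟨a, h1, h2⟩ := h
  calc l ^ n = ∏ _i : Fin n, l := by simp
    _ ≤ ∏ i, a i := Finset.prod_le_prod (fun _ _ => Nat.zero_le _) (fun i _ => h2 i)
    _ = _ := h1

lemma Admits.le_factorial {n l : ℕ} (hn : 1 ≤ n) (h : Admits n l) : l ≤ n.factorial :=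
  (Nat.le_self_pow (by omega) l).trans h.pow_le

lemma bddAbove (n : ℕ) (hn : 1 ≤ n) : BddAbove {l | Admits n l} :=
  ⟨n.factorial, fun _ h => h.le_factorial hn⟩

lemma admits_ell {n : ℕ} (hn : 1 ≤ n) : Admits n (ell n) :=
  Nat.sSup_mem ⟨1, admits_zero n hn⟩ (bddAbove n hn)

lemma le_ell {n l : ℕ} (hn : 1 ≤ n) (h : Admits n l) : l ≤ ell n :=
  le_csSup (bddAbove n hn) h

lemma le_ell_iff {n l : ℕ} (hn : 1 ≤ n) : l ≤ ell n ↔ Admits n l :=
  ⟨fun h => (admits_ell hn).mono h, le_ell hn⟩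

lemma one_le_ell {n : ℕ} (hn : 1 ≤ n) : 1 ≤ ell n := le_ell hn (admits_zero n hn)

lemma two_pow_mul_factorial_le (n : ℕ) : 2 ^ n * n.factorial ≤ (n + 1) ^ n := by
  induction n with
  | zero => simp
  | succ n ih =>
    have h : 2 * (n + 1) ^ (n + 1) ≤ (n + 2) ^ (n + 1) := by
      have := one_add_mul_le_pow (R := ℝ) (a := 1 / (n + 1 : ℝ)) (by
        have : (0 : ℝ) ≤ 1 / (n + 1 : ℝ) := by positivity
        linarith) (n + 1)
      have h0 : (0 : ℝ) < n + 1 := by positivity
      have e : ((n + 1 : ℕ) : ℝ) * (1 / (n + 1 : ℝ)) = 1 := by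
        push_cast
        field_simp
      rw [e] at this
      have h2 : (2 : ℝ) * (n + 1) ^ (n + 1) ≤ (n + 2) ^ (n + 1) := by
        have e2 : (n + 2 : ℝ) = (1 + 1 / (n + 1)) * (n + 1) := by
          field_simp
          ring
        rw [e2, mul_pow]
        have : (0 : ℝ) ≤ (n + 1 : ℝ) ^ (n + 1) := by positivity
        nlinarith
      exact_mod_cast h2
    calc 2 ^ (n + 1) * (n + 1).factorial = 2 * (n + 1) * (2 ^ n * n.factorial) := by
          rw [Nat.factorial_succ]; ring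
      _ ≤ 2 * (n + 1) * (n + 1) ^ n := Nat.mul_le_mul_left _ ih
      _ = 2 * (n + 1) ^ (n + 1) := by ring
      _ ≤ (n + 2) ^ (n + 1) := h

/-- `l(n) ≤ (n+1)/2` -/
lemma two_mul_ell_le {n : ℕ} (hn : 1 ≤ n) : 2 * ell n ≤ n + 1 := by
  have h1 := (admits_ell hn).pow_le
  have h2 := two_pow_mul_factorial_le n
  have h3 : (2 * ell n) ^ n ≤ (n + 1) ^ n := by
    rw [mul_pow]
    exact (Nat.mul_le_mul_left _ h1).trans h2
  exact (Nat.pow_le_pow_iff_left (by omega)).mp h3

lemma two_pow_mul_factorial_lt {n : ℕ} (hn : 6 ≤ n) : 2 ^ n * n.factorial < n ^ n := by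
  induction n, hn using Nat.le_induction with
  | base => decide
  | succ n hn ih =>
    have h : 2 * n ^ n ≤ (n + 1) ^ n := by
      have := one_add_mul_le_pow (R := ℝ) (a := 1 / (n : ℝ)) (by
        have : (0 : ℝ) ≤ 1 / (n : ℝ) := by positivity
        linarith) n
      have h0 : (0 : ℝ) < n := by exact_mod_cast (by omega : 0 < n)
      have e : (n : ℝ) * (1 / (n : ℝ)) = 1 := by
        field_simp
      rw [e] at this
      have h2 : (2 : ℝ) * n ^ n ≤ (n + 1) ^ n := by
        have e2 : (n + 1 : ℝ) = (1 + 1 / n) * n := by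
          field_simp
        rw [e2, mul_pow]
        have : (0 : ℝ) ≤ (n : ℝ) ^ n := by positivity
        nlinarith
      exact_mod_cast h2
    calc 2 ^ (n + 1) * (n + 1).factorial = 2 * (n + 1) * (2 ^ n * n.factorial) := by
          rw [Nat.factorial_succ]; ring
      _ < 2 * (n + 1) * n ^ n := by
          apply Nat.mul_lt_mul_of_pos_left ih
          positivity
      _ = (n + 1) * (2 * n ^ n) := by ring
      _ ≤ (n + 1) * (n + 1) ^ n := Nat.mul_le_mul_left _ h
      _ = (n + 1) ^ (n + 1) := by ring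

/-- `l(n) < n/2` for `n ≥ 6` -/
lemma two_mul_ell_lt {n : ℕ} (hn : 6 ≤ n) : 2 * ell n < n := by
  have h1 := (admits_ell (n := n) (by omega)).pow_le
  have h2 := two_pow_mul_factorial_lt hn
  have h3 : (2 * ell n) ^ n < n ^ n := by
    rw [mul_pow]
    exact (Nat.mul_le_mul_left _ h1).trans_lt h2
  exact lt_of_pow_lt_pow_left₀ n (Nat.zero_le _) h3

end Pool.Agent.H88.FA
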