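import Pool.Agent.H88.FA.Defs

/-!
# Upper bound for the gaps of `l`: the exchange argument
-/

namespace Pool.Agent.H88.FA

open Finset

/-- Phase 2: removal of a multiset `Q` of primes, paid by a multiset `S` of free primes. -/
lemma remove_primes {n t : ℕ} (hn : 1 ≤ n) (Q : Multiset ℕ) :
    ∀ M S : Multiset ℕ, Multiset.card M = n → (∀ a ∈ M, t ≤ a) → (∀ q ∈ S, q.Prime) → (∀ q ∈ Q, q.Prime) →
      M.prod * S.prod = n.factorial * Q.prod → (Q.map (Nat.clog 2)).sum ≤ Multiset.card S →
      Admits n t := by
  induction Q using Multiset.induction_on with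
  | empty =>
    intro M S hM hM2 hS _ hprod _
    rw [Multiset.prod_zero, mul_one] at hprod
    rw [admits_iff]
    obtain ⟨a, M', rfl⟩ : ∃ a M', M = a ::ₘ M' := by
      have : M ≠ 0 := by
        rintro rfl
        simp at hM
        omega
      obtain ⟨a, ha⟩ := Multiset.exists_mem_of_ne_zero this
      exact ⟨a, M.erase a, (Multiset.cons_erase ha).symm⟩
    refine ⟨(a * S.prod) ::ₘ M', by simpa using hM, ?_, ?_⟩
    · rw [← hprod, Multiset.prod_cons, Multiset.prod_cons]; ring
    · intro b hb
      rw [Multiset.mem_cons] at hb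
      rcases hb with rfl | hb
      · have h1 := hM2 a (Multiset.mem_cons_self a M')
        have h2 : 0 < S.prod := Nat.pos_of_ne_zero (by
          rw [Ne, Multiset.prod_eq_zero_iff]
          intro h0
          exact (hS 0 h0).ne_zero rfl)
        exact h1.trans (Nat.le_mul_of_pos_right _ h2)
      · exact hM2 b (Multiset.mem_cons_of_mem hb)
  | cons q Q ih =>
    intro M S hM hM2 hS hQ hprod hcard
    have hq : q.Prime := hQ q (Multiset.mem_cons_self q Q)
    have hQ' : ∀ r ∈ Q, r.Prime := fun r hr => hQ r (Multiset.mem_cons_of_mem hr)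
    rw [Multiset.map_cons, Multiset.sum_cons] at hcard
    rw [Multiset.prod_cons] at hprod
    have hclog : 1 ≤ Nat.clog 2 q := Nat.clog_pos (by norm_num) hq.two_le
    by_cases hqS : q ∈ S
    · obtain ⟨S', rfl⟩ := Multiset.exists_cons_of_mem hqS
      refine ih M S' hM hM2 (fun r hr => hS r (Multiset.mem_cons_of_mem hr)) hQ' ?_ ?_
      · rw [Multiset.prod_cons] at hprod
        apply Nat.eq_of_mul_eq_mul_left hq.pos
        calc q * (M.prod * S'.prod) = M.prod * (q * S'.prod) := by ring
          _ = n.factorial * (q * Q.prod) := hprod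
          _ = _ := by ring
      · rw [Multiset.card_cons] at hcard
        omega
    · have hdvd : q ∣ M.prod := by
        have h1 : q ∣ M.prod * S.prod := by
          rw [hprod]
          exact Dvd.dvd.mul_left (Dvd.intro _ rfl) _
        rcases hq.dvd_mul.mp h1 with h | h
        · exact h
        · obtain ⟨s, hs, hs2⟩ := (Nat.Prime.prime hq).exists_mem_multiset_dvd h
          have : q = s := (Nat.prime_dvd_prime_iff_eq hq (hS s hs)).mp hs2
          exact absurd (this ▸ hs) hqS
      obtain ⟨A, hA, u, hu⟩ := (Nat.Prime.prime hq).exists_mem_multiset_dvd hdvd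
      obtain ⟨M', rfl⟩ := Multiset.exists_cons_of_mem hA
      obtain ⟨S1, hS1, hS1c⟩ : ∃ S1 ≤ S, Multiset.card S1 = Nat.clog 2 q := by
        have h := Multiset.card_powersetCard (Nat.clog 2 q) S
        have h2 : 0 < (Multiset.card S).choose (Nat.clog 2 q) := Nat.choose_pos (by omega)
        obtain ⟨S1, hS1⟩ := Multiset.card_pos_iff_exists_mem.mp (h ▸ h2)
        rw [Multiset.mem_powersetCard] at hS1
        exact ⟨S1, hS1.1, hS1.2⟩
      obtain ⟨S2, rfl⟩ := Multiset.le_iff_exists_add.mp hS1
      have hS1p : q ≤ S1.prod := by
        have h1 : 2 ^ Multiset.card S1 ≤ S1.prod := by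
          apply Multiset.pow_card_le_prod
          intro x hx
          exact (hS x (Multiset.mem_add.mpr (Or.inl hx))).two_le
        rw [hS1c] at h1
        exact (Nat.le_pow_clog (by norm_num) q).trans h1
      refine ih ((u * S1.prod) ::ₘ M') S2 (by simpa using hM) ?_
        (fun r hr => hS r (Multiset.mem_add.mpr (Or.inr hr))) hQ' ?_ ?_
      · intro b hb
        rw [Multiset.mem_cons] at hb
        rcases hb with rfl | hb
        · calc t ≤ A := hM2 A (Multiset.mem_cons_self A M')
            _ = u * q := by rw [hu, mul_comm]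
            _ ≤ u * S1.prod := Nat.mul_le_mul_left _ hS1p
        · exact hM2 b (Multiset.mem_cons_of_mem hb)
      · rw [Multiset.prod_cons, Multiset.prod_add, hu] at hprod
        rw [Multiset.prod_cons]
        apply Nat.eq_of_mul_eq_mul_left hq.pos
        calc q * (u * S1.prod * M'.prod * S2.prod) = q * u * M'.prod * (S1.prod * S2.prod) := by ring
          _ = n.factorial * (q * Q.prod) := hprod
          _ = _ := by ring
      · rw [Multiset.card_add, hS1c] at hcard
        omega

/-- number of prime factors of `a` in `W`, with multiplicity -/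
def om (W : Finset ℕ) (a : ℕ) : ℕ := ∑ P ∈ W, a.factorization P

lemma om_mul (W : Finset ℕ) {a b : ℕ} (ha : a ≠ 0) (hb : b ≠ 0) : om W (a * b) = om W a + om W b := by
  unfold om
  rw [Nat.factorization_mul ha hb, ← Finset.sum_add_distrib]
  rfl

lemma om_prod (W : Finset ℕ) (M : Multiset ℕ) (h : (0 : ℕ) ∉ M) : om W M.prod = (M.map (om W)).sum := by
  induction M using Multiset.induction_on with
  | empty => simp [om]
  | cons a M ih =>
    rw [Multiset.mem_cons, not_or] at h
    rw [Multiset.prod_cons, om_mul W (fun h0 => h.1 h0.symm), ih h.2, Multiset.map_cons, Multiset.sum_cons]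
    rw [Ne, Multiset.prod_eq_zero_iff]
    exact h.2

lemma om_le (W : Finset ℕ) (a : ℕ) : om W a ≤ a.primeFactorsList.length := by
  have h1 : a.primeFactorsList.length = ∑ P ∈ a.primeFactors, a.factorization P := by
    rw [← ArithmeticFunction.cardFactors_apply, ArithmeticFunction.cardFactors_eq_sum_factorization]
    rfl
  rw [h1]
  unfold om
  have h2 : ∑ P ∈ W, a.factorization P = ∑ P ∈ W ∩ a.primeFactors, a.factorization P := by
    symm
    apply Finset.sum_subset Finset.inter_subset_left
    intro P hP hP2
    rw [Finset.mem_inter, not_and] at hP2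
    have := hP2 hP
    rw [← Nat.support_factorization, Finsupp.notMem_support_iff] at this
    exact this
  rw [h2]
  exact Finset.sum_le_sum_of_subset Finset.inter_subset_right

lemma two_le_factorization_factorial {P N : ℕ} (hP : P.Prime) (h : 2 * P ≤ N) :
    2 ≤ N.factorial.factorization P := by
  rw [← hP.pow_dvd_iff_le_factorization (Nat.factorial_ne_zero N)]
  have h1 : P ∣ P.factorial := Nat.dvd_factorial hP.pos le_rfl
  calc P ^ 2 = P * P := by ring
    _ ∣ P.factorial * P.factorial := Nat.mul_dvd_mul h1 h1
    _ ∣ (P + P).factorial := Nat.factorial_mul_factorial_dvd_factorial_add P P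
    _ ∣ N.factorial := Nat.factorial_dvd_factorial (by omega)

open Classical in
/-- the prime of `W` dividing `a` if there is one, else `a` itself -/
noncomputable def pick (W : Finset ℕ) (a : ℕ) : ℕ := if h : ∃ P ∈ W, P ∣ a then h.choose else a

lemma pick_dvd (W : Finset ℕ) (a : ℕ) : pick W a ∣ a := by
  classical
  unfold pick
  split_ifs with h
  · exact h.choose_spec.2
  · exact dvd_rfl

lemma le_pick {W : Finset ℕ} {a t : ℕ} (ha : t ≤ a) (hW : ∀ P ∈ W, t ≤ P) : t ≤ pick W a := by
  classical
  unfold pick
  split_ifs with h
  · exact hW _ h.choose_spec.1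
  · exact ha

/-- the freed part has at least half as many primes as `a` has in `W` -/
lemma om_le_two_mul {W : Finset ℕ} {a L : ℕ} (hW : ∀ P ∈ W, P.Prime ∧ P < L) (ha : L ≤ a) :
    om W a ≤ 2 * (a / pick W a).primeFactorsList.length := by
  classical
  by_cases h : ∃ P ∈ W, P ∣ a
  · have e : pick W a = h.choose := by unfold pick; rw [dif_pos h]
    obtain ⟨h1, h2⟩ := h.choose_spec
    rw [e]
    set P := h.choose
    obtain ⟨u, hu⟩ := h2
    have hPp := (hW P h1).1
    have hPL := (hW P h1).2
    have hu2 : 2 ≤ u := by
      by_contra hc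
      have : u ≤ 1 := by omega
      have : a ≤ P := by
        rw [hu]
        calc P * u ≤ P * 1 := Nat.mul_le_mul_left _ this
          _ = P := mul_one P
      omega
    have e2 : a / P = u := by rw [hu]; exact Nat.mul_div_cancel_left u hPp.pos
    rw [e2]
    have h3 : a.primeFactorsList.length = u.primeFactorsList.length + 1 := by
      rw [← ArithmeticFunction.cardFactors_apply, ← ArithmeticFunction.cardFactors_apply, hu,
        ArithmeticFunction.cardFactors_mul hPp.ne_zero (by omega), ArithmeticFunction.cardFactors_apply_prime hPp,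
        add_comm]
    have h4 := om_le W a
    have h5 : 1 ≤ u.primeFactorsList.length := by
      have : u.primeFactorsList ≠ [] := by
        rw [Ne, Nat.primeFactorsList_eq_nil]
        omega
      exact List.length_pos_iff.mpr this
    omega
  · have : om W a = 0 := by
      unfold om
      apply Finset.sum_eq_zero
      intro P hP
      apply Nat.factorization_eq_zero_of_not_dvd
      intro h2
      exact h ⟨P, hP, h2⟩
    omega

/-- **Gap bound.** If `p` is a prime factor of `n+1` and there are at least `cost ((n+1)/p)` primes in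
`[t, l(n+1))`, then `l(n) ≥ t`. -/
theorem gap_bound {n p t : ℕ} (hn : 1 ≤ n) (hp : p.Prime) (hpn : p ∣ n + 1) (ht : t ≤ ell (n + 1))
    (hW : cost ((n + 1) / p) ≤ ((Finset.Ico t (ell (n + 1))).filter Nat.Prime).card) :
    t ≤ ell n := by
  classical
  set L := ell (n + 1) with hL
  set W := (Finset.Ico t L).filter Nat.Prime with hWdef
  have hW1 : ∀ P ∈ W, P.Prime ∧ P < L := by
    intro P hP
    rw [hWdef, Finset.mem_filter, Finset.mem_Ico] at hP
    exact ⟨hP.2, hP.1.2⟩
  have hW2 : ∀ P ∈ W, t ≤ P := by
    intro P hP
    rw [hWdef, Finset.mem_filter, Finset.mem_Ico] at hP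
    exact hP.1.1
  have hL2 : 2 * L ≤ n + 2 := two_mul_ell_le (n := n + 1) (by omega)
  have hL1 : 1 ≤ L := one_le_ell (by omega)
  obtain ⟨M0, hM0c, hM0p, hM0⟩ := admits_iff.mp (admits_ell (n := n + 1) (by omega))
  have h0 : (0 : ℕ) ∉ M0 := by
    intro h
    have := hM0 0 h
    omega
  -- the dissolved factor
  have hpM : p ∣ M0.prod := by
    rw [hM0p, Nat.factorial_succ]
    exact Dvd.dvd.mul_right hpn _
  obtain ⟨A, hA, hpA⟩ := (Nat.Prime.prime hp).exists_mem_multiset_dvd hpM
  obtain ⟨M1, rfl⟩ := Multiset.exists_cons_of_mem hA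
  obtain ⟨v, hv⟩ := hpA
  obtain ⟨s, hs⟩ := hpn
  have hAL : L ≤ A := hM0 A (Multiset.mem_cons_self A M1)
  have hM1 : ∀ a ∈ M1, L ≤ a := fun a ha => hM0 a (Multiset.mem_cons_of_mem ha)
  have hv0 : v ≠ 0 := by
    rintro rfl
    omega
  have hs0 : s ≠ 0 := by
    rintro rfl
    omega
  have hsdiv : (n + 1) / p = s := by rw [hs]; exact Nat.mul_div_cancel_left s hp.pos
  have hvdiv : A / p = v := by rw [hv]; exact Nat.mul_div_cancel_left v hp.pos
  -- the freed primes
  set S : Multiset ℕ := (M1.bind fun a => ((a / pick W a).primeFactorsList : Multiset ℕ)) +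
    (v.primeFactorsList : Multiset ℕ) with hS
  have hSprime : ∀ q ∈ S, q.Prime := by
    intro q hq
    rw [hS, Multiset.mem_add, Multiset.mem_bind] at hq
    rcases hq with ⟨a, -, hq⟩ | hq
    · exact Nat.prime_of_mem_primeFactorsList (Multiset.mem_coe.mp hq)
    · exact Nat.prime_of_mem_primeFactorsList (Multiset.mem_coe.mp hq)
  have hprod : (M1.map (pick W)).prod * S.prod = n.factorial * s := by
    have e1 : S.prod = (M1.map fun a => a / pick W a).prod * v := by
      rw [hS, Multiset.prod_add, Multiset.prod_bind]
      congr 1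
      · congr 1
        apply Multiset.map_congr rfl
        intro a ha
        rw [Multiset.prod_coe]
        apply Nat.prod_primeFactorsList
        have h1 := hM1 a ha
        have h2 := Nat.le_of_dvd (by omega) (pick_dvd W a)
        have h3 : 0 < pick W a := Nat.pos_of_dvd_of_pos (pick_dvd W a) (by omega)
        exact (Nat.div_pos h2 h3).ne'
      · rw [Multiset.prod_coe]
        exact Nat.prod_primeFactorsList hv0
    have e2 : (M1.map (pick W)).prod * (M1.map fun a => a / pick W a).prod = M1.prod := by
      rw [← Multiset.prod_map_mul]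
      conv_rhs => rw [← Multiset.map_id M1]
      congr 1
      apply Multiset.map_congr rfl
      intro a _
      exact Nat.mul_div_cancel' (pick_dvd W a)
    rw [e1, ← mul_assoc, e2]
    rw [Multiset.prod_cons, Nat.factorial_succ, hv, hs] at hM0p
    apply Nat.eq_of_mul_eq_mul_left hp.pos
    calc p * (M1.prod * v) = p * v * M1.prod := by ring
      _ = p * s * n.factorial := hM0p
      _ = _ := by ring
  have hScard : W.card ≤ Multiset.card S := by
    have h1 : 2 * W.card ≤ om W ((A ::ₘ M1).prod) := by
      rw [hM0p]
      unfold om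
      calc 2 * W.card = ∑ _P ∈ W, 2 := by rw [Finset.sum_const, smul_eq_mul, mul_comm]
        _ ≤ _ := Finset.sum_le_sum fun P hP =>
            two_le_factorization_factorial (hW1 P hP).1 (by have := (hW1 P hP).2; omega)
    rw [om_prod W _ h0, Multiset.map_cons, Multiset.sum_cons] at h1
    have h2 : (M1.map (om W)).sum ≤ 2 * Multiset.card (M1.bind fun a => ((a / pick W a).primeFactorsList : Multiset ℕ)) := by
      rw [Multiset.card_bind]
      calc (M1.map (om W)).sum ≤ (M1.map fun a => 2 * (a / pick W a).primeFactorsList.length).sum := by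
            apply Multiset.sum_map_le_sum_map
            intro a ha
            exact om_le_two_mul hW1 (hM1 a ha)
        _ = 2 * (M1.map fun a => (a / pick W a).primeFactorsList.length).sum := by
            rw [Multiset.sum_map_mul_left]
        _ = _ := by
            congr 2
    have h3 : om W A ≤ 2 * v.primeFactorsList.length := by
      by_cases h : ∃ P ∈ W, P ∣ A
      · obtain ⟨P, hP, hPA⟩ := h
        have hPp := (hW1 P hP).1
        have hPL := (hW1 P hP).2
        have h4 : A.primeFactorsList.length = v.primeFactorsList.length + 1 := by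
          rw [← ArithmeticFunction.cardFactors_apply, ← ArithmeticFunction.cardFactors_apply, hv,
            ArithmeticFunction.cardFactors_mul hp.ne_zero hv0, ArithmeticFunction.cardFactors_apply_prime hp,
            add_comm]
        have h5 := om_le W A
        have h6 : 1 ≤ v.primeFactorsList.length := by
          have : v.primeFactorsList ≠ [] := by
            rw [Ne, Nat.primeFactorsList_eq_nil]
            rintro (h7 | h7)
            · exact hv0 h7
            · rw [h7, mul_one] at hv
              rw [hv] at hPA
              have := (Nat.prime_dvd_prime_iff_eq hPp hp).mp hPA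
              omega
          exact List.length_pos_iff.mpr this
        omega
      · have : om W A = 0 := by
          unfold om
          apply Finset.sum_eq_zero
          intro P hP
          apply Nat.factorization_eq_zero_of_not_dvd
          intro h2
          exact h ⟨P, hP, h2⟩
        omega
    have h4 : Multiset.card S = Multiset.card (M1.bind fun a => ((a / pick W a).primeFactorsList : Multiset ℕ)) +
        v.primeFactorsList.length := by
      rw [hS, Multiset.card_add, Multiset.coe_card]
    omega
  apply le_ell hn
  apply remove_primes hn (s.primeFactorsList : Multiset ℕ) (M1.map (pick W)) S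
  · rw [Multiset.card_map]
    rw [Multiset.card_cons] at hM0c
    omega
  · intro b hb
    rw [Multiset.mem_map] at hb
    obtain ⟨a, ha, rfl⟩ := hb
    exact le_pick (ht.trans (hM1 a ha)) hW2
  · exact hSprime
  · intro q hq
    exact Nat.prime_of_mem_primeFactorsList (Multiset.mem_coe.mp hq)
  · rw [hprod, Multiset.prod_coe, Nat.prod_primeFactorsList hs0]
  · rw [hsdiv] at hW
    refine le_trans ?_ (hW.trans hScard)
    unfold cost
    rw [Multiset.map_coe, Multiset.sum_coe]

end Pool.Agent.H88.FA
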