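import Pool.Agent.H88.FA.Defs

/-!
# Plateaus of `l`
-/

namespace Pool.Agent.H88.FA

open Finset

/-- the exchange step: a factorisation with few copies of `v` can be improved on `n+1, …, n+k` -/
lemma exchange {n k v x : ℕ} (hv : 2 * v < n) (hx : 2 * x ≤ k) (M : Multiset ℕ) (hM : Multiset.card M = n)
    (hp : M.prod = n.factorial) (hMv : ∀ a ∈ M, v ≤ a) (hc : M.count v = x) (hv1 : 1 ≤ v) :
    Admits (n + k) (v + 1) := by
  classical
  set c := (n + 2) / 2 with hcdef
  set D : Finset ℕ := Finset.Ico c (c + x) with hD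
  set I : Finset ℕ := Finset.Ico (n + 1) (n + k + 1) with hI
  set E : Finset ℕ := D.image (fun d => 2 * d) with hE
  have hEI : E ⊆ I := by
    intro m hm
    rw [hE, Finset.mem_image] at hm
    obtain ⟨d, hd, rfl⟩ := hm
    rw [hD, Finset.mem_Ico] at hd
    rw [hI, Finset.mem_Ico]
    omega
  have hinj : Set.InjOn (fun d => 2 * d) (D : Set ℕ) := by
    intro a _ b _ h
    simpa using h
  have hEc : E.card = x := by
    rw [hE, Finset.card_image_of_injOn hinj, hD, Nat.card_Ico]
    omega
  have hEp : ∏ m ∈ E, m = 2 ^ x * ∏ d ∈ D, d := by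
    rw [hE, Finset.prod_image hinj, Finset.prod_mul_distrib, Finset.prod_const, hD, Nat.card_Ico]
    congr 2
    omega
  have hIp : n.factorial * ∏ m ∈ I, m = (n + k).factorial := by
    rw [← Finset.prod_Ico_id_eq_factorial n, ← Finset.prod_Ico_id_eq_factorial (n + k), hI]
    exact Finset.prod_Ico_consecutive (fun m => m) (by omega) (by omega)
  have hIE : (∏ m ∈ I \ E, m) * ∏ m ∈ E, m = ∏ m ∈ I, m := Finset.prod_sdiff hEI
  have hF : M = M.filter (· ≠ v) + Multiset.replicate x v := by
    have h1 := Multiset.filter_add_not (fun a => a ≠ v) M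
    have h2 : M.filter (fun a => ¬ (a ≠ v)) = Multiset.replicate x v := by
      rw [← hc, ← Multiset.filter_eq']
      congr 1
      ext a
      simp
    rw [h2] at h1
    exact h1.symm
  set F := M.filter (· ≠ v) with hFdef
  have hFc : Multiset.card F + x = n := by
    rw [← hM]
    conv_rhs => rw [hF]
    simp
  have hFp : F.prod * v ^ x = n.factorial := by
    rw [← hp]
    conv_rhs => rw [hF]
    simp
  rw [admits_iff]
  refine ⟨F + Multiset.replicate x (2 * v) + D.val + (I \ E).val, ?_, ?_, ?_⟩
  · simp only [Multiset.card_add, Multiset.card_replicate]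
    have h1 : Multiset.card D.val = x := by
      change D.card = x
      rw [hD, Nat.card_Ico]
      omega
    have h2 : Multiset.card (I \ E).val = k - x := by
      change (I \ E).card = k - x
      rw [Finset.card_sdiff_of_subset hEI, hEc, hI, Nat.card_Ico]
      omega
    rw [h1, h2]
    omega
  · simp only [Multiset.prod_add, Multiset.prod_replicate]
    have h1 : D.val.prod = ∏ d ∈ D, d := Finset.prod_val D
    have h2 : (I \ E).val.prod = ∏ m ∈ I \ E, m := Finset.prod_val (I \ E)
    rw [h1, h2, ← hIp, ← hIE, hEp, ← hFp, mul_pow]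
    ring
  · intro a ha
    rw [Multiset.mem_add, Multiset.mem_add, Multiset.mem_add] at ha
    rcases ha with ((ha | ha) | ha) | ha
    · rw [hFdef, Multiset.mem_filter] at ha
      have := hMv a ha.1
      have h3 := ha.2
      omega
    · rw [Multiset.mem_replicate] at ha
      omega
    · have ha' : a ∈ D := ha
      rw [hD, Finset.mem_Ico] at ha'
      omega
    · have ha' : a ∈ I \ E := ha
      rw [Finset.mem_sdiff, hI, Finset.mem_Ico] at ha'
      omega

/-- **Plateau bound.** If `l(n) = l(n+k) = v`, `n ≥ 6`, then `v ^ (⌊k/2⌋ + 1)` divides `n!`. -/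
theorem plateau_bound {n k : ℕ} (hn : 6 ≤ n) (h : ell (n + k) = ell n) :
    ell n ^ (k / 2 + 1) ∣ n.factorial := by
  classical
  set v := ell n with hv
  obtain ⟨M, hMc, hMp, hMv⟩ := admits_iff.mp (admits_ell (n := n) (by omega))
  by_cases hx : 2 * M.count v ≤ k
  · exfalso
    have h1 := exchange (two_mul_ell_lt hn) hx M hMc hMp hMv rfl (one_le_ell (by omega))
    have h2 := le_ell (by omega) h1
    omega
  · have h1 : k / 2 + 1 ≤ M.count v := by omega
    have h2 : Multiset.replicate (k / 2 + 1) v ≤ M := Multiset.le_count_iff_replicate_le.mp h1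
    have h3 := Multiset.prod_dvd_prod_of_le h2
    rw [Multiset.prod_replicate, hMp] at h3
    exact h3

/-- On a plateau of length `k`, `k < 2 v_p(n!)` for every prime `p` dividing the value. -/
theorem plateau_factorization {n k p : ℕ} (hn : 6 ≤ n) (h : ell (n + k) = ell n) (hp : p.Prime)
    (hpv : p ∣ ell n) : k < 2 * n.factorial.factorization p := by
  have h1 := plateau_bound hn h
  have h2 : p ^ (k / 2 + 1) ∣ n.factorial := (pow_dvd_pow_of_dvd hpv _).trans h1
  rw [hp.pow_dvd_iff_le_factorization (Nat.factorial_ne_zero n)] at h2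
  omega

/-- On a plateau of length `k`, every prime factor `p` of the value satisfies `k (p - 1) ≤ 2 (n - 1)`. -/
theorem plateau_smooth {n k p : ℕ} (hn : 6 ≤ n) (h : ell (n + k) = ell n) (hp : p.Prime)
    (hpv : p ∣ ell n) : (k + 1) * (p - 1) ≤ 2 * (n - 1) := by
  have h1 := plateau_factorization hn h hp hpv
  have h2 : (p - 1) * n.factorial.factorization p = n - (p.digits n).sum := by
    haveI := Fact.mk hp
    have := sub_one_mul_padicValNat_factorial (p := p) n
    rw [← this, Nat.factorization_def _ hp]
  have h3 : 1 ≤ (p.digits n).sum := by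
    by_contra hc
    have h4 : (p.digits n).sum = 0 := by omega
    have h5 : n = Nat.ofDigits p (p.digits n) := (Nat.ofDigits_digits p n).symm
    have h6 : ∀ d ∈ p.digits n, d = 0 := by
      intro d hd
      have := List.single_le_sum (fun x _ => Nat.zero_le x) d hd
      omega
    have h7 : Nat.ofDigits p (p.digits n) = 0 := by
      have h8 : p.digits n = List.replicate (p.digits n).length 0 := List.eq_replicate_iff.mpr ⟨rfl, h6⟩
      have h9 : (p.digits n).getLast (Nat.digits_ne_nil_iff_ne_zero.mpr (by omega)) ≠ 0 :=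
        Nat.getLast_digit_ne_zero p (by omega)
      exact absurd (h6 _ (List.getLast_mem _)) h9
    omega
  have h4 : (k + 1) * (p - 1) ≤ 2 * (n.factorial.factorization p) * (p - 1) := Nat.mul_le_mul_right _ h1
  calc (k + 1) * (p - 1) ≤ 2 * (n.factorial.factorization p) * (p - 1) := h4
    _ = 2 * ((p - 1) * n.factorial.factorization p) := by ring
    _ = 2 * (n - (p.digits n).sum) := by rw [h2]
    _ ≤ 2 * (n - 1) := by omega

end Pool.Agent.H88.FA
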